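import Pool.Agent.U554.TD.Ser
import Pool.Agent.U554.TD.Cx
import Pool.Agent.U483.GU.HDefs

/-!
# Etale cohomology of the cycle complexes of negative weight and the cubics `T(x, y, z) = 1`

Let `k` be a finite field of characteristic `p`.

* `O b m X`, for the separated schemes `X` of finite type over `k`, is the group
  `H^{- m - 2 b}(X_et, ℤ^c(b)) ⊗ ℤ[1/p]`. For `b < 0` this is `H^{- m - 2 b}(X_et, ℤ^c(b))`, because these groups are
  uniquely `p`-divisible (`ℤ^c(b)/p = 0`). If `X` is smooth of pure dimension `N`, then `O (N - j) m X` is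
  `H^{2 j - m}(X_et, ℤ(j)) ⊗ ℤ[1/p]`.
* `NegativeWeights O X`: the groups `H^i(X_et, ℤ^c(n))` are finitely generated for all `n < 0` and all `i`.

Let `T` be a trilinear form in three blocks `x`, `y`, `z` of `a₁`, `a₂`, `a₃` variables.

* `bilS T` is the closed subscheme `Z_T` of `𝔸^(a₂ + a₃)` given by the `a₁` bilinear equations
  `∂T/∂x_i (y, z) = 0`;
* `hypS T` is the smooth affine cubic hypersurface `Y_T : T(x, y, z) = 1` of dimension `a₁ + a₂ + a₃ - 1`.
-/

set_option autoImplicit false

open CategoryTheory AlgebraicGeometry MvPolynomial Pool.Agent.Y116.UV Pool.Agent.U554.TW Pool.Agent.U554.TD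
  Pool.Agent.U483.GU

universe w

namespace Pool.Agent.Results.MP_c1eb4d_ag.CubicsByDimension

variable {k : Type} [Field k]

/-- The group is finitely generated. -/
def FG (M : ModuleCat.{w} ℤ) : Prop := Module.Finite ℤ M

/-- The groups of `X` in all degrees and in all negative weights are finitely generated. -/
def NegativeWeights (O : ℤ → ℤ → Sch k → ModuleCat.{w} ℤ) (X : Sch k) : Prop :=
  ∀ b : ℤ, b < 0 → ∀ m : ℤ, FG (O b m X)

/-- The known properties of the groups `H^{- m - 2 b}(X_et, ℤ^c(b)) ⊗ ℤ[1/p]` over the finite field `k`: the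
properties `IsAbTheory` (isomorphic schemes, long exact sequences, zero in small weights for fixed `m`, homotopy
invariance, Jouanolou's bundles, restriction from `X × 𝔾_m`) and

* `boundary`: the group of `X` in the degree `m` is a direct factor of the group of `X × 𝔾_m` in the degree
  `m + 1` (cup product with the coordinate, boundary at `0`);
* `curves`: for the schemes of dimension at most `1` the groups of negative weight are finitely generated (Harder,
  Soule, Geisser; smooth projective curves and the localization sequence);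
* `alterations`: if the groups of negative weight of all smooth projective schemes of dimension at most `d` are
  finitely generated, then so are those of all schemes of dimension at most `d` (de Jong's alterations, transfer,
  finiteness with finite coefficients). -/
structure IsCycleComplex (O : ℤ → ℤ → Sch k → ModuleCat.{w} ℤ) : Prop extends IsAbTheory O where
  boundary : ∀ (A : Type) [CommRing A] [Algebra k A] [Algebra.FiniteType k A] (b m : ℤ),
    Nonempty (Retract (O b m (aff k A)) (O b (m + 1) (aff k (LaurentPolynomial A))))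
  curves : ∀ X : Sch k, FT True X → topologicalKrullDim X.left ≤ (1 : ℕ) → NegativeWeights O X
  alterations : ∀ d : ℕ,
    (∀ V : Sch k, SmoothProjective V → topologicalKrullDim V.left ≤ d → NegativeWeights O V) →
    ∀ X : Sch k, FT True X → topologicalKrullDim X.left ≤ d → NegativeWeights O X

lemma weight {O : ℤ → ℤ → Sch k → ModuleCat.{w} ℤ} {a₁ a₂ a₃ : ℕ} {T : Fin a₁ → Fin a₂ → Fin a₃ → k} :
    (∀ b ∈ {b : ℤ | b < 0}, ∀ m : ℤ, FG (O (b + a₁ - 1) m (hypS T))) ↔
      ∀ j : ℕ, a₂ + a₃ < j → ∀ m : ℤ, FG (O (a₁ + a₂ + a₃ - 1 - j) m (hypS T)) := by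
  constructor
  · intro h j hj m
    have h1 := h (a₂ + a₃ - j) (show (a₂ + a₃ - j : ℤ) < 0 by omega) m
    rwa [show (a₂ + a₃ - j + a₁ - 1 : ℤ) = a₁ + a₂ + a₃ - 1 - j from by ring] at h1
  · intro h b hb m
    have hb' : b < 0 := hb
    have h1 := h (a₂ + a₃ - b).toNat (by omega) m
    rwa [show (a₁ + a₂ + a₃ - 1 - ((a₂ + a₃ - b).toNat : ℤ) : ℤ) = b + a₁ - 1 from by omega] at h1

/-- **Cohomology of the cycle complexes of negative weight and cubics.** Let `k` be a finite field.

(A) If one of the three blocks of `T` has at most `3` variables (the other two are arbitrary), then the groups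
`H^i(Z_T, ℤ^c(n))`, `n < 0`, and `H^i(Y_T, ℤ(j)) ⊗ ℤ[1/p]`, `j > a₂ + a₃`, are finitely generated for all `i`.

(B) Let `d ≥ 1` and `s` be any numbers. The following are equivalent (and true for `d = 1`):

1. `d = 1`, or `H^i(V_et, ℤ^c(n))` is finitely generated for all `n < 0`, all `i` and all smooth projective `V`
   of dimension at most `d`;
2. the same for all separated schemes of finite type of dimension at most `d`;
3. the same for all `Z_T` with a block of at most `d + 2` variables, and for all closed subschemes of affine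
   spaces given by equations with `t_1, …, t_c` terms, `∑ max(t_i - 2, 0) ≤ d`;
4. `H^i(Y_T, ℤ(j)) ⊗ ℤ[1/p]` is finitely generated for all `i`, all `j > a₂ + a₃` and all `T` with a block of at
   most `d + 2` variables;
5. the same for all `T` with exactly `d + 2` variables `y` and at least `s` variables `z`. -/
theorem result [Finite k] (O : ℤ → ℤ → Sch k → ModuleCat.{w} ℤ) (hO : IsCycleComplex O) :
    (∀ (a₁ a₂ a₃ : ℕ) (T : Fin a₁ → Fin a₂ → Fin a₃ → k), OneSmall 3 a₁ a₂ a₃ →
      NegativeWeights O (bilS T) ∧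
      ∀ j : ℕ, a₂ + a₃ < j → ∀ m : ℤ, FG (O (a₁ + a₂ + a₃ - 1 - j) m (hypS T))) ∧
    ∀ d : ℕ, 1 ≤ d → ∀ s : ℕ, List.TFAE [
      d = 1 ∨ ∀ V : Sch k, SmoothProjective V → topologicalKrullDim V.left ≤ d → NegativeWeights O V,
      ∀ X : Sch k, FT True X → topologicalKrullDim X.left ≤ d → NegativeWeights O X,
      (∀ (a₁ a₂ a₃ : ℕ) (T : Fin a₁ → Fin a₂ → Fin a₃ → k), OneSmall (d + 2) a₁ a₂ a₃ →
        NegativeWeights O (bilS T)) ∧
      ∀ (n : ℕ) (G : Finset (MvPolynomial (Fin n) k)), ∑ g ∈ G, (g.support.card - 2) ≤ d →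
        NegativeWeights O (aff k (MvPolynomial (Fin n) k ⧸ Ideal.span (G : Set (MvPolynomial (Fin n) k)))),
      ∀ (a₁ a₂ a₃ : ℕ) (T : Fin a₁ → Fin a₂ → Fin a₃ → k), OneSmall (d + 2) a₁ a₂ a₃ →
        ∀ j : ℕ, a₂ + a₃ < j → ∀ m : ℤ, FG (O (a₁ + a₂ + a₃ - 1 - j) m (hypS T)),
      ∀ (a₁ a₃ : ℕ) (T : Fin a₁ → Fin (d + 2) → Fin a₃ → k), s ≤ a₃ →
        ∀ j : ℕ, d + 2 + a₃ < j → ∀ m : ℤ, FG (O (a₁ + (d + 2) + a₃ - 1 - j) m (hypS T))] := by
  have hP : IsSerre (FG.{w}) := serre_fg
  have hW : ∀ b ∈ {b : ℤ | b < 0}, ∀ b' ≤ b, b' ∈ {b : ℤ | b < 0} :=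
    fun b hb b' hb' => lt_of_le_of_lt hb' hb
  have hpt : AllIn FG {b : ℤ | b < 0} O (aff k k) := by
    refine hO.curves _ (ft_aff True) ?_
    rw [Pool.Agent.Z125.UN.topDim_aff, ringKrullDim_eq_zero_of_field]
    exact_mod_cast (by omega : (0 : ℕ) ≤ 1)
  have hS := allIn_sided hP hO.toIsAbTheory hW hpt
  have main := fun (d : ℕ) (hd : 1 ≤ d) (s : ℤ) =>
    serre_tfae (k := k) hP hO.toIsAbTheory hW hpt hO.boundary d hd s
  refine ⟨fun a₁ a₂ a₃ T ha => ?_, fun d hd s => ?_⟩
  · have h1 : ∀ X : Sch k, FT True X → topologicalKrullDim X.left ≤ (1 : ℕ) →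
        AllIn FG {b : ℤ | b < 0} O X := hO.curves
    have h2 := allIn_bil hP hO.toIsAbTheory hW hpt 1 h1 T ha
    exact ⟨h2, weight.mp fun b hb => (hyp_iff_bil hP hO.toIsAbTheory hW hpt T b hb).mp (h2 b hb)⟩
  · have h := main d hd s
    tfae_have 1 → 2 := by
      rintro (rfl | h1)
      · exact hO.curves
      · exact hO.alterations d h1
    tfae_have 2 → 1 := fun h1 => Or.inr fun V hV => h1 V hV.ft
    tfae_have 2 → 3 := by
      intro h1
      refine ⟨fun a₁ a₂ a₃ T ha => allIn_bil hP hO.toIsAbTheory hW hpt d h1 T ha, fun n G hG => ?_⟩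
      refine complexity hS d (fun A _ _ _ hA => ?_) G hG
      refine h1 _ (ft_aff True) ?_
      rw [Pool.Agent.Z125.UN.topDim_aff]
      exact hA
    tfae_have 3 → 4 := fun h1 a₁ a₂ a₃ T ha => weight.mp fun b hb =>
      (hyp_iff_bil hP hO.toIsAbTheory hW hpt T b hb).mp (h1.1 a₁ a₂ a₃ T ha b hb)
    tfae_have 4 → 5 := by
      intro h1 a₁ a₃ T _ j hj m
      have h2 := h1 a₁ (d + 2) a₃ T (Or.inr (Or.inl le_rfl)) j hj m
      push_cast at h2
      exact h2
    tfae_have 5 → 2 := by
      intro h1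
      refine (h.out 3 0).mp fun a₁ a₃ T ha => weight.mpr fun j hj m => ?_
      have h2 := h1 a₁ a₃ T (by exact_mod_cast ha) j hj m
      push_cast
      exact h2
    tfae_finish

end Pool.Agent.Results.MP_c1eb4d_ag.CubicsByDimension
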