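import Pool.Agent.U30.WE.Main

/-!
# Negative weights: étale motivic cohomology of products with varieties of Fermat type

Let `κ` be a finite field with `q` elements, of characteristic `p`, and `𝒱` a class of smooth projective
varieties over `κ`, closed under products, with Chow groups `A` with rational coefficients and a Weil
cohomology theory `H` (framework of helper492 and helper484: `TheoryData`, `IsChow`, `IsWeil`). Let `X_i` be
varieties in `𝒱` **of Fermat type** of different prime degrees `N_i` and of lengths at most `s_i`
(`IsFermatType`): the cohomology of `X_i` is generated by the classes of cycles and a subspace `T_i`, stable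
under the Frobenius, such that each eigenvalue of the Frobenius on `T_i` is, up to a root of unity and a
power of `q`, a product `∏_{a ∈ A} g(θ ^ a)` of at most `s_i` Gauss sums over `κ`, where `θ` is a
multiplicative character of `κ` of order `N_i`, and where the multiset `A + p A + ⋯ + p ^ (f - 1) A`, `f` the
order of `p` modulo `N_i`, is not symmetric. For example the diagonal hypersurfaces `∑ x_j ^ N = 0` of any
dimension over `κ`, `N` dividing `p - 1`, and their powers and products are of this form (Weil; Ran, Shioda and
Katsura). Let `Z` be **any** variety in `𝒱`, and suppose that the eigenvalues `β` of Frobenius on `H(Z)` are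
algebraic (theorem of Deligne) and that `Z` satisfies `IsSmallBase`: for all `β` and all `i` there is an `m > 0`
such that the field `F = ℚ(β ^ m) ∩ ℚ(ζ_{N_i})` is real, or `N_i > s_i f_i [F : ℚ] + 1`, or `N_i = 2`. So all prime
numbers `N_i` are allowed with finitely many exceptions, which depend only on the fields `ℚ(β)`. Suppose that
homologically trivial self-correspondences of degree zero of the products `V` are nilpotent (known for
example if `Z` is dominated by a product of curves and the `X_i` are diagonal hypersurfaces: Kimura).

For `X` in `𝒱`, of dimension `d`, the group `H^i(X_et, ℤ^c(n))` is the étale motivic cohomology group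
`H^(2d + i)(X_et, ℤ(d - n))` (see the problem file). The groups `H^j(X_et, ℤ(m))` with `j - 2 m = c` are the parts
`W^m(X)` of a group `W(X)`, for each integer `c` (`GroupTheory`, `cohomology`). Only the following properties are
used (`IsGroupTheory`): correspondences with rational coefficients act on `W` **up to isogeny** (that is, as
homomorphisms with rational coefficients), compatibly with composition and identities, and a
correspondence in `CH^(dim X + j)(X × Y)` maps `W^m(X)` to `W^(m + j)(Y)`; the Frobenius endomorphism of `X` acts on
`W^m(X)` as `q ^ m` (Geisser); the groups for `m < 0` are zero; the subgroups of elements killed by a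
positive integer `N` are finite (they are quotients of `H^(j-1)(X_et, ℤ/N(m))`).

**Theorem.** Let `V` be the product of `Z` and of the `X_i` for `i` in a finite set, and `δ = dim V - dim Z`.
* For all `i` and `n` the group `H^i(V_et, ℤ^c(n))` is finitely generated if and only if the groups
  `H^(i + 2r)(Z_et, ℤ^c(n - r))` are finitely generated for `0 ≤ r ≤ δ`.
* The assertion of the question for `V` in weight `n` (finite generation for all `i ≤ -2n + 1`) is equivalent to the
  one for `Z` in the weights `n - r`, `0 ≤ r ≤ δ`.
* **The answer to the question for `V` (all `n < 0`) is the same as for `Z` (all `n < 0`).**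

So the class of varieties for which the question has a positive answer is closed under products with
varieties of Fermat type, under the condition on the degrees above. The known class in the problem
file starts with products of curves. No case of the Tate conjecture is assumed for `Z` or for the products.

The proof. The Künneth formulas of helper876 (`N876/CG`) and helper231 (`U231/FF`, `U231/FR`) are about rational
theories on which correspondences act, and finite generation is not a property of the rational
groups. We apply them to the theories `X ↦ Hom(D, W(X)) ⊗ ℚ` for **all abelian groups `D`** (`homData`), for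
`D = W^n(V)` to the inclusion of `W^n(V)` (Yoneda); see `U30/WE` and `MP_cb388a_ag.FermatFactors`.
-/

set_option autoImplicit false

open Polynomial CategoryTheory AlgebraicGeometry

namespace Pool.Agent.Results.MP_c1eb4d_ag.FermatFactors

open Pool.Agent.H914 Pool.Agent.H914.VarClass Pool.Agent.H914.VarClass.Obj Pool.Agent.W492.BB
  Pool.Agent.W484.CK Pool.Agent.U231.FF Pool.Agent.U231.FR.Base Pool.Agent.U30.WE

variable {k : Type} [Field k] {𝒱 : VarClass k} {A : TheoryData.{0, 0, 0} 𝒱 ℚ}

/-- The group `H^i(X_et, ℤ^c(n)) = H^(2d + i)(X_et, ℤ(d - n))`, `d = dim X`; `G c` consists of the groups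
`H^j(X_et, ℤ(m))` with `j - 2 m = c`. -/
def cohomology (G : ℤ → GroupTheory A) (X : 𝒱.Obj) (i n : ℤ) : AddSubgroup ((G (i + 2 * n)).W X) :=
  (G (i + 2 * n)).part X (X.dim - n)

/-- The assertion of the question for `X` in weight `n`: the groups `H^i(X_et, ℤ^c(n))` are finitely generated
for all `i ≤ -2n + 1`. -/
def Assertion (G : ℤ → GroupTheory A) (X : 𝒱.Obj) (n : ℤ) : Prop :=
  ∀ i : ℤ, i ≤ -2 * n + 1 → (cohomology G X i n).FG

/-- The conclusions for the product `V` of the `X i` with `i ∈ L` and of `Z`; `dimension X L` is
`dim V - dim Z`. -/
structure Conclusions {ι : Type} (G : ℤ → GroupTheory A) (X : ι → 𝒱.Obj) (Z : 𝒱.Obj) (L : List ι) :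
    Prop where
  groups : ∀ i n : ℤ, (cohomology G (productOf X Z L) i n).FG ↔
    ∀ r : ℕ, r ≤ dimension X L → (cohomology G Z (i + 2 * r) (n - r)).FG
  one_weight : ∀ n : ℤ, Assertion G (productOf X Z L) n ↔
    ∀ r : ℕ, r ≤ dimension X L → Assertion G Z (n - r)
  question : (∀ n : ℤ, n < 0 → Assertion G (productOf X Z L) n) ↔ ∀ n : ℤ, n < 0 → Assertion G Z n

theorem dim_productOf {ι : Type} (X : ι → 𝒱.Obj) (Z : 𝒱.Obj) (L : List ι) :
    (productOf X Z L).dim = dimension X L + Z.dim := by
  induction L with
  | nil => simp [productOf, dimension]
  | cons i L ih =>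
    have h1 : (productOf X Z (i :: L)).dim = (X i).dim + (productOf X Z L).dim := Obj.dim_prod _ _
    rw [h1, ih, dimension]
    ring

/-- **Negative weights for products of arbitrary varieties with varieties of Fermat type of different prime
degrees.** -/
theorem result (p : ℕ) [Fact p.Prime] (κ : Type) [Field κ] [Fintype κ] [CharP κ p] {ι : Type}
    (N s : ι → ℕ) {𝒱 : VarClass κ} (A : TheoryData.{0, 0, 0} 𝒱 ℚ) [IsChow A] {K : Type} [Field K]
    [IsAlgClosed K] [CharZero K] (H : WeilTheoryData.{0, 0, 0} A K) [IsWeil H] (τ : K →+* ℂ)
    (F : ∀ X : 𝒱.Obj, X ⟶ X) (X : ι → 𝒱.Obj) (Z : 𝒱.Obj)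
    (h : IsFermatSystem p N s H τ F X Z (Polynomial.X - 1))
    (hnil : ∀ L, Nilpotence H (productOf X Z L))
    (G : ℤ → GroupTheory A) (hG : ∀ c, IsGroupTheory (G c) F (Fintype.card κ)) :
    ∀ L : List ι, L.Nodup → Conclusions G X Z L := by
  intro L hL
  have hdim : ((productOf X Z L).dim : ℤ) = dimension X L + Z.dim := by
    rw [dim_productOf]
    push_cast
    ring
  have key : ∀ i n : ℤ, (cohomology G (productOf X Z L) i n).FG ↔
      ∀ r : ℕ, r ≤ dimension X L → (cohomology G Z (i + 2 * r) (n - r)).FG := by
    intro i n
    have h1 := main p κ N s A H τ F X Z h hnil (G (i + 2 * n)) (hG _) L hL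
      ((productOf X Z L).dim - n)
    unfold cohomology
    rw [h1]
    constructor
    · intro h2 r hr
      have h3 := h2 (Z.dim - (n - r)) (by omega) (by omega)
      have h4 : i + 2 * (r : ℤ) + 2 * (n - r) = i + 2 * n := by ring
      rw [h4]
      exact h3
    · intro h2 m hm1 hm2
      have h3 := h2 (m - Z.dim + n).toNat (by omega)
      have h4 : ((m - Z.dim + n).toNat : ℤ) = m - Z.dim + n := by omega
      rw [h4] at h3
      have h5 : i + 2 * (m - Z.dim + n) + 2 * (n - (m - Z.dim + n)) = i + 2 * n := by ring
      have h6 : (Z.dim : ℤ) - (n - (m - Z.dim + n)) = m := by ring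
      rw [h5, h6] at h3
      exact h3
  have key2 : ∀ n : ℤ, Assertion G (productOf X Z L) n ↔
      ∀ r : ℕ, r ≤ dimension X L → Assertion G Z (n - r) := by
    intro n
    constructor
    · intro h1 r hr i hi
      have h2 := (key (i - 2 * r) n).1 (h1 _ (by omega)) r hr
      rw [sub_add_cancel] at h2
      exact h2
    · intro h1 i hi
      rw [key]
      intro r hr
      exact h1 r hr _ (by omega)
  refine ⟨key, key2, ⟨fun h1 n hn => ?_, fun h1 n hn => (key2 n).2 fun r _ => h1 _ (by omega)⟩⟩
  have h2 := (key2 n).1 (h1 n hn) 0 (Nat.zero_le _)
  rw [Nat.cast_zero, sub_zero] at h2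
  exact h2

end Pool.Agent.Results.MP_c1eb4d_ag.FermatFactors
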