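import Pool.Agent.U213.EM.Main

/-!
# Finite generation of étale motivic cohomology: proper regular schemes and three-term systems

Fix an integer `n < 0`. `IsCycle R n A` lists the properties of the groups `A i X = H^i(X_et, ℤ^c(n))` which are
used, for the separated schemes `X` of finite type over `R`, where `R = ℤ` (the arithmetic schemes) or
`R = 𝔽_p`. `ProperRegular n A` is the question: `A i X` is finitely generated for all proper regular `X` and
all `i ≤ -2n + 1`. The following are equivalent:

* `ProperRegular n A`;
* `A i X` is finitely generated for all `i` and all separated schemes `X` of finite type over `R`;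
* `A i X` is finitely generated for all `i` and the affine schemes `X` given by systems of equations over
  `R`, each of which is a sum of at most three monomials `x_i y_j`.

For every `d`, the question for the proper regular schemes of dimension at most `d` is equivalent to finite
generation, for all `i`, for all separated schemes of finite type of dimension at most `d`.

The weight `n` is fixed, so no homotopy invariance is used. New here: the passage from proper regular
schemes to all schemes in a fixed weight, with integral coefficients, and with the dimension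
(`Pool.Agent.U213.EM`, `Pool.Agent.U213.BP.NI`). The reduction of any property closed under closed-open
decompositions and the multiplicative group to three-term systems, and the descent of finite generation
along transfers, are those of `Pool.Agent.Q282.UZ`.
-/

set_option autoImplicit false

open CategoryTheory AlgebraicGeometry MvPolynomial Pool.Agent.Y116.UV Pool.Agent.Q282.UZ
  Pool.Agent.U213.EM

namespace Pool.Agent.Results.MP_c1eb4d_ag.ThreeTermSystems

universe w

/-- All groups are finitely generated for all affine schemes over `R` given by a system of equations each of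
which is a sum of at most three monomials `x_i y_j`. -/
def ForSystems {R : Type} [CommRing R] (A : ℤ → Sch R → ModuleCat.{w} ℤ) : Prop :=
  ∀ (a b c : ℕ) (E : Fin c → Finset (Fin a × Fin b)), (∀ l, (E l).card ≤ 3) →
    FG A (aff R (MvPolynomial (Fin a ⊕ Fin b) R ⧸ Ideal.span (Set.range fun l =>
      ∑ e ∈ E l, (X (Sum.inl e.1) * X (Sum.inr e.2) : MvPolynomial (Fin a ⊕ Fin b) R))))

lemma key {R : Type} [CommRing R] [IsNoetherianRing R] (hR : ∃ r : ℕ, ringKrullDim R ≤ r)
    (hS : ShortPresents R) {n : ℤ} {A : ℤ → Sch R → ModuleCat.{w} ℤ} (h : IsCycle R n A) :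
    (ProperRegular n A ↔ ∀ X : Sch R, FT True X → FG A X) ∧
    (ProperRegular n A ↔ ForSystems A) ∧
    ∀ d : ℕ, ProperRegularDim n A d ↔
      ∀ X : Sch R, FT True X → topologicalKrullDim X.left ≤ d → FG A X :=
  ⟨all_iff h hR, (all_iff h hR).trans (sys_iff h hS), dim_iff h⟩

theorem result (n : ℤ) :
    (∀ A : ℤ → Sch ℤ → ModuleCat.{w} ℤ, IsCycle ℤ n A →
      (ProperRegular n A ↔ ∀ X : Sch ℤ, FT True X → FG A X) ∧
      (ProperRegular n A ↔ ForSystems A) ∧
      ∀ d : ℕ, ProperRegularDim n A d ↔
        ∀ X : Sch ℤ, FT True X → topologicalKrullDim X.left ≤ d → FG A X) ∧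
    ∀ (p : ℕ) [Fact p.Prime] (A : ℤ → Sch (ZMod p) → ModuleCat.{w} ℤ), IsCycle (ZMod p) n A →
      (ProperRegular n A ↔ ∀ X : Sch (ZMod p), FT True X → FG A X) ∧
      (ProperRegular n A ↔ ForSystems A) ∧
      ∀ d : ℕ, ProperRegularDim n A d ↔
        ∀ X : Sch (ZMod p), FT True X → topologicalKrullDim X.left ≤ d → FG A X := by
  refine ⟨fun A hA => key ⟨1, ?_⟩ short_int hA,
    fun p _ A hA => key ⟨0, ?_⟩ (short_presents ZMod.intCast_surjective) hA⟩
  · exact (Ring.krullDimLE_iff (n := 1)).1 inferInstance
  · exact (ringKrullDim_eq_zero_of_field (ZMod p)).le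

end Pool.Agent.Results.MP_c1eb4d_ag.ThreeTermSystems
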