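import Pool.Agent.U738.EC.Main

/-!
# Finite generation of étale motivic cohomology: two-term equations and actions of complexity one

Let `R = ℤ` or `R = 𝔽_p`. `IsCycles R A` lists the properties of the groups
`A n i X = H^i(X_et, ℤ^c(n))`, for all `n < 0` and all separated schemes `X` of finite type over `R`, which
are used: the properties `IsCycle R n` in a fixed weight (library `U213/EM`: localization, finiteness of
the torsion, de Jong's alterations, the range of Flach, Morin and Geisser), the exact sequence of
`X × 𝔾_m`, which involves the weights `n` and `n - 1`, and finite generation in dimension at most one.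
`AllFG A X` means that all these groups of `X`, for all `n < 0` and all `i`, are finitely generated.

For every `N` the following are equivalent:

1. Q1 in all weights `n < 0` for the proper regular schemes `X` of dimension at most `N`: the groups
   `H^i(X_et, ℤ^c(n))` are finitely generated for all `i ≤ -2n + 1`;
2. `AllFG` for all schemes `X = Spec S[x_1, …, x_m] / (G)` of any dimension, where `S` is an `R`-algebra of
   finite type of dimension at most `N` and `G` any set of polynomials with at most two terms, with
   arbitrary coefficients in `S`;
3. `AllFG` for all schemes `X = Spec A`, of any dimension and with any singularities, where `A` is an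
   `R`-algebra of finite type with a grading by a commutative group (an action of a diagonalizable group) of
   complexity at most `N`: for all homogeneous elements `f` the ring `(A[1 / f])_0` has dimension at most
   `N`.

They are true for `N = 1`. So all affine schemes over arithmetic curves defined by binomials, and all
affine schemes with a torus action of complexity at most one, have finitely generated groups
`H^i(X_et, ℤ^c(n))`, `n < 0`; these schemes are in general neither cellular nor proper nor regular, and
the equations may degenerate at points of the base.

Proof: noetherian induction over the base; the strata of a two-term scheme are Laurent polynomial rings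
over algebras of dimension at most `N` (twisted group algebras), and the invariant open pieces of a graded
algebra are, up to closed invariant subschemes, finite over Laurent polynomial rings over the degree zero
part.
-/

set_option autoImplicit false

open CategoryTheory AlgebraicGeometry Pool.Agent.Y116.UV Pool.Agent.U213.EM Pool.Agent.U738.BN
  Pool.Agent.U738.CX Pool.Agent.U738.EC

namespace Pool.Agent.Results.MP_c1eb4d_ag.TwoTermsAndComplexity

universe w

lemma key {R : Type} [CommRing R] [IsNoetherianRing R] {A : ℤ → ℤ → Sch R → ModuleCat.{w} ℤ}
    (h : IsCycles R A) (N : ℕ) :
    List.TFAE [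
      ∀ n : ℤ, n < 0 → ProperRegularDim n (A n) N,
      ForTerms N 2 (AllFG A),
      ForComplexity N (AllFG A),
      N ≤ 1 ∨ ForDimension N (AllFG A)] := by
  have h0 := proper_iff h N
  have h1 := dim_iff_terms h (N : WithBot ℕ∞)
  have h2 := dim_iff_complexity h (N : WithBot ℕ∞)
  have h3 : ForDimension N (AllFG A) ↔ (N ≤ 1 ∨ ForDimension N (AllFG A)) := by
    refine ⟨Or.inr, ?_⟩
    rintro (hN | hN)
    · intro B _ _ _ hB
      exact forDim_one h B (hB.trans (by exact_mod_cast hN))
    · exact hN
  tfae_have 1 ↔ 2 := h0.trans h1
  tfae_have 1 ↔ 3 := h0.trans h2
  tfae_have 1 ↔ 4 := h0.trans h3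
  tfae_finish

/-- **Theorem.** Q1 in dimension at most `N` is equivalent to finite generation for two-term equations over
algebras of dimension at most `N` and for affine schemes with a grading of complexity at most `N`; all this
is true for `N ≤ 1`. -/
theorem result :
    (∀ (A : ℤ → ℤ → Sch ℤ → ModuleCat.{w} ℤ), IsCycles ℤ A → ∀ N : ℕ,
      List.TFAE [
        ∀ n : ℤ, n < 0 → ProperRegularDim n (A n) N,
        ForTerms N 2 (AllFG A),
        ForComplexity N (AllFG A),
        N ≤ 1 ∨ ForDimension N (AllFG A)]) ∧
    ∀ (p : ℕ) [Fact p.Prime] (A : ℤ → ℤ → Sch (ZMod p) → ModuleCat.{w} ℤ), IsCycles (ZMod p) A →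
      ∀ N : ℕ, List.TFAE [
        ∀ n : ℤ, n < 0 → ProperRegularDim n (A n) N,
        ForTerms N 2 (AllFG A),
        ForComplexity N (AllFG A),
        N ≤ 1 ∨ ForDimension N (AllFG A)] :=
  ⟨fun _ hA N => key hA N, fun _ _ _ hA N => key hA N⟩

end Pool.Agent.Results.MP_c1eb4d_ag.TwoTermsAndComplexity
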